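import Pool.Agent.H790.FQ.TorusB

set_option autoImplicit false
open Set Topology
open scoped ContDiff

namespace Pool.Agent.H790.FQ
open Pool.Agent.H289R3.FQ

theorem norm_smul_ee (h : ℝ) (j : Fin 5) : ‖h • ee j‖ ≤ |h| := by
  rw [norm_smul, Real.norm_eq_abs]
  have : ‖ee j‖ ≤ 1 := by
    rw [pi_norm_le_iff_of_nonneg zero_le_one]
    intro i
    unfold ee
    by_cases hi : i = j
    · subst hi; simp
    · simp [Pi.single_eq_of_ne hi]
  nlinarith [abs_nonneg h]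

theorem local_good {B : Set (Fin 5 → ℝ)} (hB : IsOpen B) {g : (Fin 5 → ℝ) → T1}
    (hg : ContinuousOn g B) {y₀ : Fin 5 → ℝ} (hy₀ : y₀ ∈ B) :
    ∃ η > 0, ∀ (h : ℝ) (y : Fin 5 → ℝ), |h| < η → dist y y₀ < η →
      Metric.closedBall y (5 * |h|) ⊆ B ∧ ∀ j, ‖g (y + h • ee j) - g y‖ < 1 / 16 := by
  obtain ⟨ε, hε, hεB⟩ := Metric.isOpen_iff.1 hB y₀ hy₀
  have hc : ContinuousAt g y₀ := hg.continuousAt (hB.mem_nhds hy₀)
  obtain ⟨ε', hε', hg'⟩ := Metric.continuousAt_iff.1 hc (1 / 32) (by norm_num)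
  refine ⟨min ε ε' / 10, by positivity, fun h y hh hy => ⟨?_, ?_⟩⟩
  · intro z hz
    apply hεB
    rw [Metric.mem_closedBall] at hz
    rw [Metric.mem_ball]
    have := dist_triangle z y y₀
    have h2 := min_le_left ε ε'
    have h3 := abs_nonneg h
    linarith
  · intro j
    have h2 := min_le_right ε ε'
    have h3 := abs_nonneg h
    have h1 : dist (y + h • ee j) y₀ < ε' := by
      have h4 : dist (y + h • ee j) y ≤ |h| := by
        rw [dist_eq_norm]; simpa using norm_smul_ee h j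
      have := dist_triangle (y + h • ee j) y y₀
      linarith
    have h5 := hg' h1
    have h6 : dist (g y) (g y₀) < 1 / 32 := hg' (by linarith)
    rw [← dist_eq_norm]
    have := dist_triangle_right (g (y + h • ee j)) (g y) (g y₀)
    linarith

/-- good mesh at a point -/
def Good (B₀ B₁ : Set (Fin 5 → ℝ)) (g₀ g₁ : (Fin 5 → ℝ) → T1) (r : (Fin 5 → ℝ) → ℚ)
    (h : ℝ) (y : Fin 5 → ℝ) : Prop :=
  (Metric.closedBall y (5 * |h|) ⊆ B₀ ∧ ∀ j, ‖g₀ (y + h • ee j) - g₀ y‖ < 1 / 16) ∨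
  (Metric.closedBall y (5 * |h|) ⊆ {z | z ∈ B₁ ∧ r z = r y} ∧
    (∀ j, ‖g₁ (y + h • ee j) - g₁ y‖ < 1 / 16) ∧
    |h| * ((r y).den + |((r y).num : ℝ)|) < 1 / 16)

theorem eventually_good {B₀ B₁ : Set (Fin 5 → ℝ)} {g₀ g₁ : (Fin 5 → ℝ) → T1}
    {r : (Fin 5 → ℝ) → ℚ} (hB₀ : IsOpen B₀) (hB₁ : IsOpen B₁) (hg₀ : ContinuousOn g₀ B₀)
    (hg₁ : ContinuousOn g₁ B₁) (hr : ∀ y ∈ B₁, ∀ᶠ y' in 𝓝 y, r y' = r y)
    {K : Set (Fin 5 → ℝ)} (hK : IsCompact K) (hKB : K ⊆ B₀ ∪ B₁) :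
    ∀ᶠ h in 𝓝 (0 : ℝ), ∀ y ∈ K, Good B₀ B₁ g₀ g₁ r h y := by
  apply hK.eventually_forall_of_forall_eventually
  intro y₀ hy₀
  rcases hKB hy₀ with h0 | h1
  · obtain ⟨η, hη, H⟩ := local_good hB₀ hg₀ h0
    have : ∀ᶠ z : ℝ × (Fin 5 → ℝ) in 𝓝 ((0 : ℝ), y₀), dist z ((0 : ℝ), y₀) < η :=
      Metric.eventually_nhds_iff_ball.2 ⟨η, hη, fun z hz => hz⟩
    filter_upwards [this] with z hz
    rw [Prod.dist_eq, max_lt_iff] at hz
    left
    apply H z.1 z.2 _ hz.2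
    have := hz.1
    simpa [Real.dist_eq] using this
  · have hO : IsOpen {z | z ∈ B₁ ∧ r z = r y₀} := by
      rw [isOpen_iff_mem_nhds]
      rintro z ⟨hz, hz'⟩
      filter_upwards [hB₁.mem_nhds hz, hr z hz] with w hw hw'
      exact ⟨hw, hw'.trans hz'⟩
    obtain ⟨η, hη, H⟩ := local_good hO (hg₁.mono (fun z hz => hz.1)) ⟨h1, rfl⟩
    set D : ℝ := (r y₀).den + |((r y₀).num : ℝ)| with hD
    have hD0 : 0 ≤ D := by positivity
    have hD1 : 0 < 1 / (16 * (D + 1)) := by positivity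
    have : ∀ᶠ z : ℝ × (Fin 5 → ℝ) in 𝓝 ((0 : ℝ), y₀),
        dist z ((0 : ℝ), y₀) < min η (1 / (16 * (D + 1))) :=
      Metric.eventually_nhds_iff_ball.2 ⟨_, lt_min hη hD1, fun z hz => hz⟩
    filter_upwards [this] with z hz
    rw [Prod.dist_eq, max_lt_iff] at hz
    right
    have hz1 : |z.1| < min η (1 / (16 * (D + 1))) := by
      have := hz.1
      simpa [Real.dist_eq] using this
    obtain ⟨H1, H2⟩ := H z.1 z.2 (hz1.trans_le (min_le_left _ _))
      (hz.2.trans_le (min_le_left _ _))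
    have hry : r z.2 = r y₀ :=
      (H1 (Metric.mem_closedBall_self (by positivity))).2
    refine ⟨?_, H2, ?_⟩
    · rw [hry]; exact H1
    · rw [hry, ← hD]
      have h3 : |z.1| < 1 / (16 * (D + 1)) := hz1.trans_le (min_le_right _ _)
      have h4 : |z.1| * D ≤ 1 / (16 * (D + 1)) * D :=
        mul_le_mul_of_nonneg_right h3.le hD0
      have h5 : 1 / (16 * (D + 1)) * D < 1 / 16 := by
        rw [div_mul_eq_mul_div, one_mul, div_lt_div_iff₀ (by positivity) (by norm_num)]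
        nlinarith
      linarith

/-- periodic set -/
def Per (B : Set (Fin 5 → ℝ)) : Prop := ∀ y j, y ∈ B ↔ y + ee j ∈ B

section
variable {N : ℕ} [NeZero N]

theorem Per.wr {B : Set (Fin 5 → ℝ)} (hB : Per B) (x : GG N) (j : Fin 5) (y : Fin 5 → ℝ) :
    y + wr j x • ee j ∈ B ↔ y ∈ B := by
  rcases wr_cases j x with h | h
  · rw [h]; simp
  · rw [h, one_smul]; exact (hB y j).symm

def In (B : Set (Fin 5 → ℝ)) (k : ℕ) (x : GG N) : Prop :=
  Metric.closedBall (pt x) (k * (1 / (N : ℝ))) ⊆ B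

theorem In.step (hN : 2 ≤ N) {B : Set (Fin 5 → ℝ)} (hB : Per B) {k : ℕ} {x : GG N}
    (h : In B (k + 1) x) (j : Fin 5) : In B k (x + EE N j) := by
  intro y hy
  rw [← hB.wr x j]
  apply h
  rw [Metric.mem_closedBall] at *
  have e := pt_add hN x j
  have e1 : y + wr j x • ee j - pt x = (y - pt (x + EE N j)) + (1 / (N : ℝ)) • ee j := by
    have : (1 / (N : ℝ)) • ee j = pt (x + EE N j) + wr j x • ee j - pt x := by
      rw [e]; abel
    rw [this]; abel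
  rw [dist_eq_norm] at *
  rw [e1]
  have h1 := norm_add_le (y - pt (x + EE N j)) ((1 / (N : ℝ)) • ee j)
  have h2 := norm_smul_ee (1 / (N : ℝ)) j
  have h3 : (0 : ℝ) ≤ 1 / (N : ℝ) := by positivity
  rw [abs_of_nonneg h3] at h2
  push_cast
  linarith

theorem In.mem {B : Set (Fin 5 → ℝ)} {k : ℕ} {x : GG N} (h : In B k x) : pt x ∈ B :=
  h (Metric.mem_closedBall_self (by positivity))

theorem In.pred {B : Set (Fin 5 → ℝ)} {k : ℕ} {x : GG N} (h : In B (k + 1) x) : In B k x := by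
  refine (Metric.closedBall_subset_closedBall ?_).trans h
  have h3 : (0 : ℝ) ≤ 1 / (N : ℝ) := by positivity
  push_cast
  linarith

end

end Pool.Agent.H790.FQ
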