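import Pool.Agent.H790.FQ.TorusC

set_option autoImplicit false
open Set Topology
open scoped ContDiff

namespace Pool.Agent.H790.FQ
open Pool.Agent.H289R3.FQ

section
variable {N : ℕ} [NeZero N]

theorem shift (hN : 2 ≤ N) {B : Set (Fin 5 → ℝ)} {g : (Fin 5 → ℝ) → T1}
    (T : Fin 5 → (Fin 5 → ℝ) → ℝ) (hper : ∀ y ∈ B, ∀ j, g (y + ee j) = g y + ((T j y : ℝ) : T1))
    (z : GG N) (j : Fin 5) (hz : pt (z + EE N j) ∈ B) :
    g (pt z + (1 / (N : ℝ)) • ee j) =
      g (pt (z + EE N j)) + ((wr j z * T j (pt (z + EE N j)) : ℝ) : T1) := by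
  rw [← pt_add hN]
  rcases wr_cases j z with h | h
  · rw [h]; simp
  · rw [h, one_smul, hper _ hz, one_mul]

theorem small_of (hN : 2 ≤ N) {B : Set (Fin 5 → ℝ)} {g : (Fin 5 → ℝ) → T1}
    (T : Fin 5 → (Fin 5 → ℝ) → ℝ) (hper : ∀ y ∈ B, ∀ j, g (y + ee j) = g y + ((T j y : ℝ) : T1))
    (A : Fin 5 → GG N → ℝ)
    (z : GG N) (j : Fin 5) (hz : pt (z + EE N j) ∈ B)
    (hs : ‖g (pt z + (1 / (N : ℝ)) • ee j) - g (pt z)‖ < 1 / 16)
    (hA : |A j z - wr j z * T j (pt (z + EE N j))| ≤ 1 / 16) :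
    Sm (fun z => g (pt z)) A j z := by
  unfold Sm
  have h1 := shift hN T hper z j hz
  have h2 : g (pt (z + EE N j)) - g (pt z) + (A j z : T1) =
      (g (pt z + (1 / (N : ℝ)) • ee j) - g (pt z)) +
        ((A j z - wr j z * T j (pt (z + EE N j)) : ℝ) : T1) := by
    rw [h1, AddCircle.coe_sub]
    abel
  change ‖g (pt (z + EE N j)) - g (pt z) + (A j z : T1)‖ < 1 / 8
  rw [h2]
  have h3 := norm_add_le (g (pt z + (1 / (N : ℝ)) • ee j) - g (pt z))
    ((A j z - wr j z * T j (pt (z + EE N j)) : ℝ) : T1)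
  have h4 := norm_coe_le (A j z - wr j z * T j (pt (z + EE N j)))
  linarith

theorem small0 (hN : 16 ≤ N) {B : Set (Fin 5 → ℝ)} {g : (Fin 5 → ℝ) → T1}
    (hper : ∀ y ∈ B, ∀ j, g (y + ee j) = g y + (if j = 4 then ((y 2 : ℝ) : T1) else 0))
    (z : GG N) (j : Fin 5) (hz : pt (z + EE N j) ∈ B)
    (hs : ‖g (pt z + (1 / (N : ℝ)) • ee j) - g (pt z)‖ < 1 / 16) :
    Sm (fun z => g (pt z)) (conn 2 4 1) j z := by
  apply small_of (by omega) (fun j y => if j = 4 then y 2 else 0) _ _ z j hz hs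
  · have hN' : (16 : ℝ) ≤ N := by exact_mod_cast hN
    have hN0 : (0 : ℝ) < N := by linarith
    have hh : (1 / (N : ℝ)) ≤ 1 / 16 := one_div_le_one_div_of_le (by norm_num) hN'
    have hh0 : 0 < (1 / (N : ℝ)) := by positivity
    have hp0 := pt_nonneg z 4
    have hp1 := pt_le_one z 4
    unfold conn
    by_cases hj : j = 4
    · subst hj
      have : pt (z + EE N 4) 2 = pt z 2 := pt_of_ne (by decide) z
      simp [this]
    · by_cases hj2 : j = 2
      · subst hj2
        simp only [hj, if_false, if_true, mul_zero, sub_zero, zero_sub]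
        push_cast
        rw [abs_le]
        constructor <;> nlinarith
      · simp [hj, hj2]
  · intro y hy j
    rw [hper y hy j]
    split_ifs <;> simp

theorem small1 (hN : 2 ≤ N) (q : ℚ) {B : Set (Fin 5 → ℝ)} {g : (Fin 5 → ℝ) → T1}
    (hper : ∀ y ∈ B, ∀ j, g (y + ee j) = g y + (if j = 3 then ((q.den * y 2 : ℝ) : T1)
        else if j = 4 then ((-(q.num * y 2) : ℝ) : T1) else 0))
    (hq : (1 / (N : ℝ)) * (q.den + |(q.num : ℝ)|) < 1 / 16)
    (z : GG N) (j : Fin 5) (hz : pt (z + EE N j) ∈ B)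
    (hs : ‖g (pt z + (1 / (N : ℝ)) • ee j) - g (pt z)‖ < 1 / 16) :
    Sm (fun z => g (pt z)) (fun j z => conn 2 3 q.den j z + conn 2 4 (-q.num) j z) j z := by
  apply small_of (by omega) (fun j y => if j = 3 then q.den * y 2 else if j = 4 then
    -(q.num * y 2) else 0) _ _ z j hz hs
  · have hN0 : (0 : ℝ) < N := by
      have : (2 : ℝ) ≤ N := by exact_mod_cast hN
      linarith
    have hh0 : 0 < (1 / (N : ℝ)) := by positivity
    unfold conn
    by_cases hj : j = 4
    · subst hj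
      have : pt (z + EE N 4) 2 = pt z 2 := pt_of_ne (by decide) z
      simp [this]
      have h2 : (4 : Fin 5) ≠ 3 := by decide
      have h3 : (4 : Fin 5) ≠ 2 := by decide
      simp [h2, h3]
      rw [show -((q.num : ℝ) * (wr 4 z * pt z 2)) + wr 4 z * (q.num * pt z 2) = 0 by ring]
      norm_num
    · by_cases hj3 : j = 3
      · subst hj3
        have : pt (z + EE N 3) 2 = pt z 2 := pt_of_ne (by decide) z
        simp [this]
        have h2 : (3 : Fin 5) ≠ 4 := by decide
        have h3 : (3 : Fin 5) ≠ 2 := by decide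
        simp [h2, h3]
        rw [show ((q.den : ℝ) * (wr 3 z * pt z 2)) - wr 3 z * (q.den * pt z 2) = 0 by ring]
        norm_num
      · by_cases hj2 : j = 2
        · subst hj2
          simp only [hj, hj3, if_false, if_true, mul_zero, sub_zero, zero_sub]
          push_cast
          have ha : |pt z 3| ≤ 1 := by
            rw [abs_of_nonneg (pt_nonneg z 3)]; exact pt_le_one z 3
          have hb : |pt z 4| ≤ 1 := by
            rw [abs_of_nonneg (pt_nonneg z 4)]; exact pt_le_one z 4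
          have e : (q.den : ℝ) * -(1 / (N : ℝ) * pt z 3) + -(q.num : ℝ) * -(1 / (N : ℝ) * pt z 4)
              = (1 / (N : ℝ)) * (-(q.den * pt z 3) + q.num * pt z 4) := by ring
          rw [e, abs_mul, abs_of_pos hh0]
          refine le_trans (mul_le_mul_of_nonneg_left ?_ hh0.le) hq.le
          refine (abs_add_le _ _).trans ?_
          rw [abs_neg, abs_mul, abs_mul]
          have hd : |(q.den : ℝ)| = q.den := abs_of_nonneg (by positivity)
          rw [hd]
          have h1 : (q.den : ℝ) * |pt z 3| ≤ q.den * 1 :=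
            mul_le_mul_of_nonneg_left ha (by positivity)
          have h2 : |(q.num : ℝ)| * |pt z 4| ≤ |(q.num : ℝ)| * 1 :=
            mul_le_mul_of_nonneg_left hb (by positivity)
          linarith
        · simp [hj, hj2, hj3]
  · intro y hy j
    rw [hper y hy j]
    split_ifs <;> simp

/-- points near `C` -/
def Nr (C : Set (Fin 5 → ℝ)) (ρ : ℝ) : Set (Fin 5 → ℝ) := {y | ∃ c ∈ C, dist y c < ρ}
/-- points far from `C` -/
def Fr (C : Set (Fin 5 → ℝ)) (ρ : ℝ) : Set (Fin 5 → ℝ) := {y | ∀ c ∈ C, ρ ≤ dist y c}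

theorem per_Nr {C : Set (Fin 5 → ℝ)} (hC : Per C) (ρ : ℝ) : Per (Nr C ρ) := by
  intro y j
  constructor
  · rintro ⟨c, hc, h⟩
    exact ⟨c + ee j, (hC c j).1 hc, by simpa using h⟩
  · rintro ⟨c, hc, h⟩
    refine ⟨c - ee j, (hC _ j).2 (by simpa using hc), ?_⟩
    have : dist y (c - ee j) = dist (y + ee j) c := by
      rw [dist_eq_norm, dist_eq_norm]; congr 1; abel
    rwa [this]

theorem per_Fr {C : Set (Fin 5 → ℝ)} (hC : Per C) (ρ : ℝ) : Per (Fr C ρ) := by
  have : Fr C ρ = (Nr C ρ)ᶜ := by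
    ext y; simp [Fr, Nr]
  intro y j
  rw [this, mem_compl_iff, mem_compl_iff, per_Nr hC ρ y j]

open Classical in
/-- chosen nearby point of `C` -/
noncomputable def cc (C : Set (Fin 5 → ℝ)) (ρ : ℝ) (z : GG N) : Fin 5 → ℝ :=
  if h : ∃ c ∈ C, dist (pt z) c < ρ then h.choose else 0

theorem cc_spec {C : Set (Fin 5 → ℝ)} {ρ : ℝ} {z : GG N} (h : pt z ∈ Nr C ρ) :
    cc C ρ z ∈ C ∧ dist (pt z) (cc C ρ z) < ρ := by
  have h' : ∃ c ∈ C, dist (pt z) c < ρ := h
  unfold cc
  rw [dif_pos h']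
  exact h'.choose_spec

noncomputable def sig (C : Set (Fin 5 → ℝ)) (f : (Fin 5 → ℝ) → T1) (ρ : ℝ) (z : GG N) : T1 :=
  f (cc C ρ z) + (((pt z 0 - cc C ρ z 0) * cc C ρ z 1 : ℝ) : T1)

theorem norm_pt_le (z : GG N) : ‖pt z‖ ≤ 1 := by
  rw [pi_norm_le_iff_of_nonneg zero_le_one]
  intro i
  rw [Real.norm_eq_abs, abs_of_nonneg (pt_nonneg z i)]
  exact pt_le_one z i

theorem smallA {δ : ℝ} (hδ : 0 < δ) (hδ1 : δ ≤ 1 / 1000) (hN : 2 ≤ N) (hNδ : 1 / (N : ℝ) < δ)
    {C : Set (Fin 5 → ℝ)} (hC : Per C)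
    {f : (Fin 5 → ℝ) → T1}
    (hf : ∀ y ∈ C, ∀ j, f (y + ee j) = f y + (if j = 1 then ((y 0 : ℝ) : T1) else 0))
    (huc : ∀ a ∈ C ∩ Metric.closedBall 0 3, ∀ b ∈ C ∩ Metric.closedBall 0 3,
      dist a b < 7 * δ → dist (f a) (f b) < 1 / 32)
    (z : GG N) (j : Fin 5) (hz : pt z ∈ Nr C (3 * δ)) (hz' : pt (z + EE N j) ∈ Nr C (3 * δ)) :
    Sm (sig C f (3 * δ)) (conn 0 1 1) j z := by
  obtain ⟨hc, hd⟩ := cc_spec hz
  obtain ⟨hc', hd'⟩ := cc_spec hz'
  unfold Sm sig
  set c := cc C (3 * δ) z with hcdef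
  set c' := cc C (3 * δ) (z + EE N j) with hcdef'
  set p := pt z with hp
  set p' := pt (z + EE N j) with hp'
  set w := wr j z with hw
  have hh0 : (0 : ℝ) < 1 / N := by
    have : (2 : ℝ) ≤ N := by exact_mod_cast hN
    positivity
  have epp : p' + w • ee j = p + (1 / (N : ℝ)) • ee j := pt_add hN z j
  have hw01 : w = 0 ∨ w = 1 := wr_cases j z
  have hc'' : c' + w • ee j ∈ C := (hC.wr z j c').2 hc'
  have hf'' : f (c' + w • ee j) = f c' + ((if j = 1 then w * c' 0 else 0 : ℝ) : T1) := by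
    rcases hw01 with h | h
    · rw [h]; simp
    · rw [h, one_smul, hf _ hc' j]
      split_ifs <;> simp
  -- norms
  have hnp : ‖p‖ ≤ 1 := norm_pt_le z
  have hnp' : ‖p'‖ ≤ 1 := norm_pt_le _
  have hnw : ‖w • ee j‖ ≤ 1 := by
    refine (norm_smul_ee w j).trans ?_
    rcases hw01 with h | h <;> rw [h] <;> simp
  have hnh : ‖(1 / (N : ℝ)) • ee j‖ ≤ 1 / (N : ℝ) := by
    refine (norm_smul_ee _ j).trans ?_
    rw [abs_of_pos hh0]
  rw [dist_eq_norm] at hd hd'
  have hnc : ‖c‖ ≤ 3 := by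
    have : c = p - (p - c) := by abel
    rw [this]
    have := norm_sub_le p (p - c)
    linarith
  have hnc' : ‖c' + w • ee j‖ ≤ 3 := by
    have e : c' + w • ee j = (p' - (p' - c')) + w • ee j := by abel
    rw [e]
    have h1 := norm_add_le (p' - (p' - c')) (w • ee j)
    have h2 := norm_sub_le p' (p' - c')
    linarith
  have hdist : dist (c' + w • ee j) c < 7 * δ := by
    rw [dist_eq_norm]
    have e : c' + w • ee j - c = (-(p' - c') + (1 / (N : ℝ)) • ee j) + (p - c) := by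
      have : (1 / (N : ℝ)) • ee j = p' + w • ee j - p := by rw [epp]; abel
      rw [this]; abel
    rw [e]
    have h1 := norm_add_le (-(p' - c') + (1 / (N : ℝ)) • ee j) (p - c)
    have h2 := norm_add_le (-(p' - c')) ((1 / (N : ℝ)) • ee j)
    rw [norm_neg] at h2
    linarith
  have hfd := huc (c' + w • ee j) ⟨hc'', by simpa using hnc'⟩ c ⟨hc, by simpa using hnc⟩ hdist
  -- main identity
  set R : ℝ := -(if j = 1 then w * c' 0 else 0) + (p' 0 - c' 0) * c' 1 - (p 0 - c 0) * c 1 +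
    conn 0 1 1 j z with hR
  have hmain : f c' + (((p' 0 - c' 0) * c' 1 : ℝ) : T1) - (f c + (((p 0 - c 0) * c 1 : ℝ) : T1)) +
      ((conn 0 1 1 j z : ℝ) : T1) = (f (c' + w • ee j) - f c) + (R : T1) := by
    rw [hf'', hR]
    simp only [AddCircle.coe_add, AddCircle.coe_sub, AddCircle.coe_neg]
    abel
  have hco : ∀ i, |p i - c i| ≤ 3 * δ := by
    intro i
    have := norm_le_pi_norm (p - c) i
    simp only [Pi.sub_apply, Real.norm_eq_abs] at this
    linarith
  have hco' : ∀ i, |p' i - c' i| ≤ 3 * δ := by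
    intro i
    have := norm_le_pi_norm (p' - c') i
    simp only [Pi.sub_apply, Real.norm_eq_abs] at this
    linarith
  have hRb : |R| ≤ 1 / 32 := by
    have p0 := pt_nonneg z 1
    have p1 := pt_le_one z 1
    have q0 := pt_nonneg (z + EE N j) 1
    have q1 := pt_le_one (z + EE N j) 1
    rw [← hp] at p0 p1
    rw [← hp'] at q0 q1
    have c1 : |c 1| ≤ 2 := by
      have := abs_le.1 (hco 1)
      rw [abs_le]; constructor <;> linarith [this.1, this.2]
    have c1' : |c' 1 + w| ≤ 3 := by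
      have := abs_le.1 (hco' 1)
      rw [abs_le]
      rcases hw01 with h | h <;> rw [h] <;> constructor <;> linarith [this.1, this.2]
    have c1'' : |c' 1| ≤ 3 := by
      have := abs_le.1 (hco' 1)
      rw [abs_le]
      constructor <;> linarith [this.1, this.2]
    have m1 : |(p 0 - c 0) * c 1| ≤ 3 * δ * 2 := by
      rw [abs_mul]
      exact mul_le_mul (hco 0) c1 (abs_nonneg _) (by positivity)
    have m2 : |(p' 0 - c' 0) * (c' 1 + w)| ≤ 3 * δ * 3 := by
      rw [abs_mul]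
      exact mul_le_mul (hco' 0) c1' (abs_nonneg _) (by positivity)
    have m3 : |(p' 0 - c' 0) * c' 1| ≤ 3 * δ * 3 := by
      rw [abs_mul]
      exact mul_le_mul (hco' 0) c1'' (abs_nonneg _) (by positivity)
    rw [abs_le] at m1 m2 m3
    by_cases hj : j = 1
    · subst hj
      have e0 : p' 0 = p 0 := pt_of_ne (by decide) z
      have e : R = (p' 0 - c' 0) * (c' 1 + w) - (p 0 - c 0) * c 1 := by
        rw [hR]
        unfold conn
        simp only [if_true]
        rw [← hw, ← hp]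
        have h10 : (1 : Fin 5) ≠ 0 := by decide
        simp only [h10, if_false]
        push_cast
        rw [e0]
        ring
      rw [e, abs_le]
      constructor <;> linarith [m1.1, m1.2, m2.1, m2.2]
    · by_cases hj0 : j = 0
      · subst hj0
        have e : R = (p' 0 - c' 0) * c' 1 - (p 0 - c 0) * c 1 - (1 / (N : ℝ)) * p 1 := by
          rw [hR]
          unfold conn
          simp only [if_true, hj, if_false]
          rw [← hp]
          push_cast
          ring
        have m4 : (1 / (N : ℝ)) * p 1 ≤ δ * 1 := mul_le_mul hNδ.le p1 p0 hδ.le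
        have m5 : 0 ≤ (1 / (N : ℝ)) * p 1 := by positivity
        rw [e, abs_le]
        constructor <;> linarith [m1.1, m1.2, m3.1, m3.2]
      · have e : R = (p' 0 - c' 0) * c' 1 - (p 0 - c 0) * c 1 := by
          rw [hR]
          unfold conn
          simp only [hj, hj0, if_false]
          ring
        rw [e, abs_le]
        constructor <;> linarith [m1.1, m1.2, m3.1, m3.2]
  rw [hmain]
  have h3 := norm_add_le (f (c' + w • ee j) - f c) (R : T1)
  have h4 := norm_coe_le R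
  rw [dist_eq_norm] at hfd
  linarith

end

end Pool.Agent.H790.FQ
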